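import Pool.Agent.H81.NCH.Stmts

/-!
# NCH, module UPP: homogeneous noncommutative circuits for the polynomials `Sp`
-/

set_option autoImplicit false

namespace Pool.Agent.H81.NCH.UPP

open Pool.Agent.H80

universe u

section

variable {K : Type u} [Field K] {σ : Type}

theorem hom_zero (k : ℕ) : HomogOf (0 : NCPoly K σ) k := by
  intro w hw
  exact absurd (by simp) hw

theorem hom_add {p q : NCPoly K σ} {k : ℕ} (hp : HomogOf p k) (hq : HomogOf q k) :
    HomogOf (p + q) k := by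
  intro w hw
  by_contra hne
  have h1 : p.coeff w = 0 := by
    by_contra h
    exact hne (hp w h)
  have h2 : q.coeff w = 0 := by
    by_contra h
    exact hne (hq w h)
  apply hw
  rw [MonoidAlgebra.coeff_add, Finsupp.add_apply, h1, h2, add_zero]

theorem hom_mul {p q : NCPoly K σ} {k l : ℕ} (hp : HomogOf p k) (hq : HomogOf q l) :
    HomogOf (p * q) (k + l) := by
  classical
  intro w hw
  by_contra hne
  apply hw
  rw [MonoidAlgebra.coeff_mul]
  apply Finset.sum_eq_zero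
  intro a ha
  apply Finset.sum_eq_zero
  intro b hb
  dsimp only
  rw [if_neg]
  rintro rfl
  apply hne
  rw [FreeMonoid.length_mul, hp a (Finsupp.mem_support_iff.1 ha),
    hq b (Finsupp.mem_support_iff.1 hb)]

theorem hom_single (w : FreeMonoid σ) (c : K) :
    HomogOf (MonoidAlgebra.single w c : NCPoly K σ) w.length := by
  classical
  intro w' hw
  by_contra hne
  apply hw
  rw [MonoidAlgebra.coeff_single, Finsupp.single_apply, if_neg]
  rintro rfl
  exact hne rfl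

theorem hom_var (i : σ) :
    HomogOf (MonoidAlgebra.single (FreeMonoid.of i) 1 : NCPoly K σ) 1 := by
  have h := hom_single (K := K) (FreeMonoid.of i) 1
  rwa [FreeMonoid.length_of] at h

theorem hom_const (c : K) : HomogOf (MonoidAlgebra.single 1 c : NCPoly K σ) 0 := by
  have h := hom_single (K := K) (1 : FreeMonoid σ) c
  rwa [FreeMonoid.length_one] at h

theorem hom_sum {ι : Type*} (s : Finset ι) (p : ι → NCPoly K σ) (k : ℕ)
    (h : ∀ i ∈ s, HomogOf (p i) k) : HomogOf (∑ i ∈ s, p i) k := by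
  classical
  induction s using Finset.induction_on with
  | empty =>
    rw [Finset.sum_empty]
    exact hom_zero k
  | insert i s hi ih =>
    rw [Finset.sum_insert hi]
    exact hom_add (h i (Finset.mem_insert_self i s))
      (ih (fun j hj => h j (Finset.mem_insert_of_mem hj)))

/-! ### Straight-line programs -/

/-- One step. -/
inductive HStep (l : List (NCPoly K σ)) : NCPoly K σ → Prop
  | var (i : σ) : HStep l (MonoidAlgebra.single (FreeMonoid.of i) 1)
  | const (c : K) : HStep l (MonoidAlgebra.single 1 c)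
  | add {a b : NCPoly K σ} (ha : a ∈ l) (hb : b ∈ l) : HStep l (a + b)
  | mul {a b : NCPoly K σ} (ha : a ∈ l) (hb : b ∈ l) : HStep l (a * b)

/-- The list `l` (latest result first) is a homogeneous straight-line program. -/
inductive HSLP : List (NCPoly K σ) → Prop
  | nil : HSLP []
  | cons {l : List (NCPoly K σ)} {p : NCPoly K σ} (h : HSLP l) (hp : HStep l p)
      (hk : ∃ k, HomogOf p k) : HSLP (p :: l)

theorem mapGate_ncValue {V W : Type} (f : V → W) (g : Gate K σ V) (val : W → NCPoly K σ) :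
    ncValue (Pre.mapGate f g) val = ncValue g (fun x => val (f x)) := by
  cases g <;> rfl

theorem restrictGate_ncValue {V : Type} (P : V → Prop) (g : Gate K σ V)
    (h : ∀ (j : Fin 2) (t : V), g.tail j = some t → P t) (val : V → NCPoly K σ) :
    ncValue (Pre.restrictGate P g h) (fun x => val x.1) = ncValue g val := by
  cases g <;> rfl

/-- Values after adding a node. -/
noncomputable def addVal (D : Pre K σ) (p : NCPoly K σ) (g : Gate K σ D.V)
    (val : D.V → NCPoly K σ) : (D.addNode g).V → NCPoly K σ := fun v => match v with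
  | none => p
  | some v => val v

theorem HSLP.exists_pre {l : List (NCPoly K σ)} (h : HSLP l) :
    ∃ (D : Pre K σ) (val : D.V → NCPoly K σ), (∀ v, val v = ncValue (D.gate v) val) ∧
      (∀ v, ∃ k, HomogOf (val v) k) ∧
      @Fintype.card D.V D.fin = l.length ∧ ∀ p ∈ l, ∃ v, val v = p := by
  induction h with
  | nil =>
    refine ⟨Pre.empty K σ, fun v => v.elim, fun v => v.elim, fun v => v.elim, rfl, ?_⟩
    intro p hp
    simp at hp
  | cons h hp hk ih =>
    rename_i l p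
    obtain ⟨D, val, hval, hhom, hcard, hmem⟩ := ih
    have key : ∃ g : Gate K σ D.V, ncValue g val = p := by
      cases hp with
      | var i => exact ⟨Gate.var i, rfl⟩
      | const c => exact ⟨Gate.const c, rfl⟩
      | add ha hb =>
        obtain ⟨v, rfl⟩ := hmem _ ha
        obtain ⟨w, rfl⟩ := hmem _ hb
        exact ⟨Gate.add v w, rfl⟩
      | mul ha hb =>
        obtain ⟨v, rfl⟩ := hmem _ ha
        obtain ⟨w, rfl⟩ := hmem _ hb
        exact ⟨Gate.mul v w, rfl⟩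
    obtain ⟨g, hg⟩ := key
    refine ⟨D.addNode g, addVal D p g val, ?_, ?_, ?_, ?_⟩
    · intro v
      cases v with
      | none => exact hg.symm.trans (mapGate_ncValue some g (addVal D p g val)).symm
      | some v => exact (hval v).trans (mapGate_ncValue some (D.gate v) (addVal D p g val)).symm
    · intro v
      cases v with
      | none => exact hk
      | some v => exact hhom v
    · rw [Pre.addNode_card, hcard]
      rfl
    · intro q hq
      rcases List.mem_cons.1 hq with rfl | hq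
      · exact ⟨none, rfl⟩
      · obtain ⟨v, hv⟩ := hmem q hq
        exact ⟨some v, hv⟩

theorem HSLP.exists_circuit {l : List (NCPoly K σ)} (h : HSLP l) {p : NCPoly K σ}
    (hp : p ∈ l) : ∃ D : Circuit K σ, HomComputes D p ∧ D.size ≤ l.length := by
  obtain ⟨D, val, hval, hhom, hcard, hmem⟩ := h.exists_pre
  obtain ⟨v, rfl⟩ := hmem p hp
  refine ⟨D.prune v, ⟨fun x => val x.1, ?_, fun x => hhom x.1, rfl⟩,
    (D.prune_size_le v).trans hcard.le⟩
  intro x
  exact (hval x.1).trans (restrictGate_ncValue _ _ _ _).symm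

/-- From the results `l`, `k` further steps suffice to have `l'`. -/
def HDer (l : List (NCPoly K σ)) (k : ℕ) (l' : List (NCPoly K σ)) : Prop :=
  (HSLP l → HSLP l') ∧ l ⊆ l' ∧ l'.length ≤ l.length + k

theorem HDer.refl (l : List (NCPoly K σ)) : HDer l 0 l := ⟨id, List.Subset.refl _, le_rfl⟩

theorem HDer.mono {l l' : List (NCPoly K σ)} {k k' : ℕ} (h : HDer l k l') (hk : k ≤ k') :
    HDer l k' l' := ⟨h.1, h.2.1, h.2.2.trans (by omega)⟩

theorem HDer.trans {l l' l'' : List (NCPoly K σ)} {k k' : ℕ} (h : HDer l k l')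
    (h' : HDer l' k' l'') : HDer l (k + k') l'' :=
  ⟨fun hl => h'.1 (h.1 hl), List.Subset.trans h.2.1 h'.2.1, by
    have := h.2.2; have := h'.2.2; omega⟩

theorem HDer.step {l l' : List (NCPoly K σ)} {k : ℕ} (h : HDer l k l')
    {p : NCPoly K σ} (hp : HStep l' p) (hk : ∃ d, HomogOf p d) : HDer l (k + 1) (p :: l') :=
  ⟨fun hl => HSLP.cons (h.1 hl) hp hk, fun _ hx => List.mem_cons_of_mem _ (h.2.1 hx), by
    have := h.2.2; simp; omega⟩

/-- Sums: each summand in `c` steps. -/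
theorem HDer.sum {ι : Type*} (s : Finset ι) (p : ι → NCPoly K σ) (d c : ℕ)
    (hom : ∀ i ∈ s, HomogOf (p i) d) (l : List (NCPoly K σ))
    (h : ∀ i ∈ s, ∀ l₁ : List (NCPoly K σ), l ⊆ l₁ → ∃ l', HDer l₁ c l' ∧ p i ∈ l') :
    ∃ l', HDer l (s.card * (c + 1) + 1) l' ∧ ∑ i ∈ s, p i ∈ l' := by
  classical
  induction s using Finset.induction_on with
  | empty =>
    refine ⟨MonoidAlgebra.single 1 0 :: l, ?_, ?_⟩
    · exact ((HDer.refl l).step (HStep.const 0) ⟨0, hom_const 0⟩).mono (by omega)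
    · rw [Finset.sum_empty]
      have h0 : (MonoidAlgebra.single 1 0 : NCPoly K σ) = 0 := by simp
      rw [h0]
      exact List.mem_cons_self
  | insert i s hi ih =>
    obtain ⟨l', h1, h2⟩ := ih (fun j hj => hom j (Finset.mem_insert_of_mem hj))
      (fun j hj => h j (Finset.mem_insert_of_mem hj))
    obtain ⟨l'', h3, h4⟩ := h i (Finset.mem_insert_self i s) l' h1.2.1
    have h5 := (h1.trans h3).step (HStep.add h4 (h3.2.1 h2))
      ⟨d, hom_add (hom i (Finset.mem_insert_self i s))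
        (hom_sum s p d (fun j hj => hom j (Finset.mem_insert_of_mem hj)))⟩
    refine ⟨_, h5.mono ?_, ?_⟩
    · rw [Finset.card_insert_of_notMem hi, Nat.add_mul]
      omega
    · rw [Finset.sum_insert hi]
      exact List.mem_cons_self

/-- The variables. -/
theorem HDer.all {ι : Type*} (s : Finset ι) (p : ι → NCPoly K σ) (k : ℕ)
    (l : List (NCPoly K σ))
    (h : ∀ i ∈ s, ∀ l₁ : List (NCPoly K σ), l ⊆ l₁ → ∃ l', HDer l₁ k l' ∧ p i ∈ l') :
    ∃ l', HDer l (s.card * k) l' ∧ ∀ i ∈ s, p i ∈ l' := by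
  classical
  induction s using Finset.induction_on with
  | empty => exact ⟨l, by simpa using HDer.refl l, by simp⟩
  | insert i s hi ih =>
    obtain ⟨l', h1, h2⟩ := ih (fun j hj => h j (Finset.mem_insert_of_mem hj))
    obtain ⟨l'', h3, h4⟩ := h i (Finset.mem_insert_self i s) l' h1.2.1
    refine ⟨l'', ?_, ?_⟩
    · rw [Finset.card_insert_of_notMem hi, add_mul, one_mul]
      exact h1.trans h3
    · intro j hj
      rcases Finset.mem_insert.1 hj with rfl | hj
      · exact h4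
      · exact h3.2.1 (h2 j hj)

end

section

variable {K : Type u} [Field K] {n : ℕ}

/-- the list contains all variables -/
def Vars (l : List (NCPoly K (Fin n))) : Prop :=
  ∀ a : Fin n, (MonoidAlgebra.single (FreeMonoid.of a) 1 : NCPoly K (Fin n)) ∈ l

theorem hom_TT {P : NCPoly K (Fin n)} {k : ℕ} (hP : HomogOf P k) : HomogOf (TT P) (k + 2) := by
  unfold TT
  apply hom_sum
  intro a _
  have h := hom_mul (hom_mul (hom_var (K := K) a) hP) (hom_var (K := K) a)
  rwa [show 1 + k + 1 = k + 2 by omega] at h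

theorem hom_TTit {P : NCPoly K (Fin n)} {k : ℕ} (hP : HomogOf P k) (H : ℕ) :
    HomogOf (TT^[H] P) (k + 2 * H) := by
  induction H with
  | zero => exact hP
  | succ H ih =>
    rw [Function.iterate_succ_apply']
    exact hom_TT ih

theorem hom_Wrap {P : NCPoly K (Fin n)} {k : ℕ} (hP : HomogOf P k) (H : ℕ) (x y : Fin n) :
    HomogOf (Wrap H x y P) (1 + (k + 2 * H) + 1 + 2 * H) := by
  unfold Wrap
  exact hom_TTit (hom_mul (hom_mul (hom_var (K := K) x) (hom_TTit hP H)) (hom_var (K := K) y)) H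

theorem der_TT {l : List (NCPoly K (Fin n))} (hl : Vars l) {P : NCPoly K (Fin n)} {k : ℕ}
    (hk : HomogOf P k) (hP : P ∈ l) : ∃ l', HDer l (n * 3 + 1) l' ∧ TT P ∈ l' := by
  have h := HDer.sum (Finset.univ : Finset (Fin n))
    (fun a => (MonoidAlgebra.single (FreeMonoid.of a) 1 * P *
      MonoidAlgebra.single (FreeMonoid.of a) 1 : NCPoly K (Fin n))) (1 + k + 1) 2
    (fun a _ => hom_mul (hom_mul (hom_var (K := K) a) hk) (hom_var (K := K) a)) l ?_
  · obtain ⟨l', h1, h2⟩ := h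
    refine ⟨l', h1.mono ?_, h2⟩
    rw [Finset.card_univ, Fintype.card_fin]
  · intro a _ l₁ hs
    have h1 := (HDer.refl l₁).step (HStep.mul (hs (hl a)) (hs hP))
      ⟨_, hom_mul (hom_var (K := K) a) hk⟩
    have h2 := h1.step (HStep.mul List.mem_cons_self (List.mem_cons_of_mem _ (hs (hl a))))
      ⟨_, hom_mul (hom_mul (hom_var (K := K) a) hk) (hom_var (K := K) a)⟩
    exact ⟨_, h2, List.mem_cons_self⟩

theorem der_TTit {l : List (NCPoly K (Fin n))} (hl : Vars l) {P : NCPoly K (Fin n)} {k : ℕ}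
    (hk : HomogOf P k) (hP : P ∈ l) (H : ℕ) :
    ∃ l', HDer l (H * (n * 3 + 1)) l' ∧ TT^[H] P ∈ l' := by
  induction H with
  | zero => exact ⟨l, (HDer.refl l).mono (by omega), hP⟩
  | succ H ih =>
    obtain ⟨l', h1, h2⟩ := ih
    obtain ⟨l'', h3, h4⟩ := der_TT (l := l') (fun a => h1.2.1 (hl a)) (hom_TTit hk H) h2
    refine ⟨l'', (h1.trans h3).mono ?_, ?_⟩
    · rw [Nat.add_mul]
      omega
    · rw [Function.iterate_succ_apply']
      exact h4

theorem der_Wrap {l : List (NCPoly K (Fin n))} (hl : Vars l) {P : NCPoly K (Fin n)} {k : ℕ}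
    (hk : HomogOf P k) (hP : P ∈ l) (H : ℕ) (x y : Fin n) :
    ∃ l', HDer l (2 * (H * (n * 3 + 1)) + 2) l' ∧ Wrap H x y P ∈ l' := by
  obtain ⟨l', h1, h2⟩ := der_TTit hl hk hP H
  have h3 := h1.step (HStep.mul (h1.2.1 (hl x)) h2) ⟨_, hom_mul (hom_var (K := K) x) (hom_TTit hk H)⟩
  have h4 := h3.step (HStep.mul List.mem_cons_self (List.mem_cons_of_mem _ (h1.2.1 (hl y))))
      ⟨_, hom_mul (hom_mul (hom_var (K := K) x) (hom_TTit hk H)) (hom_var (K := K) y)⟩
  obtain ⟨l'', h5, h6⟩ := der_TTit (fun a => h4.2.1 (hl a))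
    (hom_mul (hom_mul (hom_var (K := K) x) (hom_TTit hk H)) (hom_var (K := K) y))
    List.mem_cons_self H
  exact ⟨l'', (h4.trans h5).mono (by omega), h6⟩

/-- steps for one level -/
def lev (n H : ℕ) : ℕ := n * (2 * (2 * (H * (n * 3 + 1)) + 2) + 2) + 1

theorem der_level [NeZero n] {h m k : ℕ} {l : List (NCPoly K (Fin n))} (hl : Vars l) {d : ℕ}
    (hd : HomogOf (Sp K h m k : NCPoly K (Fin n)) d) (hP : (Sp K h m k : NCPoly K (Fin n)) ∈ l) :
    ∃ l' d', HDer l (lev n (NN h * HH m k)) l' ∧ HomogOf (Sp K h m (k + 1) : NCPoly K (Fin n)) d' ∧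
      (Sp K h m (k + 1) : NCPoly K (Fin n)) ∈ l' := by
  have hom : ∀ j ∈ (Finset.univ : Finset (Fin n)).filter (fun j : Fin n => (j : ℕ) < m ^ 2),
      HomogOf (Wrap (NN h * HH m k) 0 j (Sp K h m k) * Wrap (NN h * HH m k) j 0 (Sp K h m k) :
        NCPoly K (Fin n)) _ := fun j _ => hom_mul (hom_Wrap hd _ 0 j) (hom_Wrap hd _ j 0)
  have hs := HDer.sum _ _ _ (2 * (2 * (NN h * HH m k * (n * 3 + 1)) + 2) + 1) hom l ?_
  · obtain ⟨l', h1, h2⟩ := hs
    refine ⟨l', 1 + (d + 2 * (NN h * HH m k)) + 1 + 2 * (NN h * HH m k) +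
        (1 + (d + 2 * (NN h * HH m k)) + 1 + 2 * (NN h * HH m k)), h1.mono ?_, ?_, h2⟩
    · unfold lev
      have hc : ((Finset.univ : Finset (Fin n)).filter (fun j : Fin n => (j : ℕ) < m ^ 2)).card ≤ n :=
        (Finset.card_le_univ _).trans (by rw [Fintype.card_fin])
      exact Nat.add_le_add_right (Nat.mul_le_mul_right (2 * (2 * (NN h * HH m k * (n * 3 + 1)) + 2) +
        1 + 1) hc) 1
    · exact hom_sum _ _ _ hom
  · intro j _ l₁ hs
    obtain ⟨l2, h1, h2⟩ := der_Wrap (l := l₁) (fun a => hs (hl a)) hd (hs hP) (NN h * HH m k) 0 j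
    obtain ⟨l3, h3, h4⟩ := der_Wrap (l := l2) (fun a => h1.2.1 (hs (hl a))) hd (h1.2.1 (hs hP))
      (NN h * HH m k) j 0
    have h5 := (h1.trans h3).step (HStep.mul (h3.2.1 h2) h4)
      ⟨_, hom_mul (hom_Wrap hd _ 0 j) (hom_Wrap hd _ j 0)⟩
    exact ⟨_, h5.mono (by omega), List.mem_cons_self⟩

theorem lev_mono {n H H' : ℕ} (h : H ≤ H') : lev n H ≤ lev n H' := by
  unfold lev
  gcongr

theorem der_Sp [NeZero n] {h m : ℕ} {l : List (NCPoly K (Fin n))} (hl : Vars l) (k : ℕ)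
    (hk : k ≤ h) :
    ∃ l' d, HDer l (1 + k * lev n (NN h * HH m h)) l' ∧
      HomogOf (Sp K h m k : NCPoly K (Fin n)) d ∧ (Sp K h m k : NCPoly K (Fin n)) ∈ l' := by
  induction k with
  | zero =>
    refine ⟨MonoidAlgebra.single 1 1 :: l, 0,
      ((HDer.refl l).step (HStep.const 1) ⟨0, hom_const 1⟩).mono (by omega), ?_, ?_⟩
    · exact hom_const 1
    · exact List.mem_cons_self
  | succ k ih =>
    obtain ⟨l', d, h1, h2, h3⟩ := ih (by omega)
    obtain ⟨l'', d', h4, h5, h6⟩ := der_level (l := l') (fun a => h1.2.1 (hl a)) h2 h3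
    refine ⟨l'', d', (h1.trans h4).mono ?_, h5, h6⟩
    have hH : NN h * HH m k ≤ NN h * HH m h := by
      unfold HH
      gcongr
      · norm_num
      · omega
    have := lev_mono (n := n) hH
    rw [Nat.add_mul]
    omega

theorem der_vars (l : List (NCPoly K (Fin n))) : ∃ l', HDer l n l' ∧ Vars l' := by
  obtain ⟨l', h1, h2⟩ := HDer.all (Finset.univ : Finset (Fin n))
    (fun a => (MonoidAlgebra.single (FreeMonoid.of a) 1 : NCPoly K (Fin n))) 1 l (by
      intro a _ l₁ _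
      exact ⟨_, (HDer.refl l₁).step (HStep.var a) ⟨_, hom_var a⟩, List.mem_cons_self⟩)
  refine ⟨l', h1.mono ?_, fun a => h2 a (Finset.mem_univ a)⟩
  rw [Finset.card_univ, Fintype.card_fin]
  omega

end

theorem size_bound (h m : ℕ) (hh : 1 ≤ h) (hm : 2 ≤ m) :
    m ^ 4 + (1 + h * lev (m ^ 4) (NN h * HH m h)) ≤ (2 ^ h * m) ^ 20 := by
  have hA : 2 ≤ 2 ^ h := by
    calc 2 = 2 ^ 1 := by norm_num
      _ ≤ 2 ^ h := Nat.pow_le_pow_right (by norm_num) hh
  have hh2 : h ≤ 2 ^ h := Nat.lt_two_pow_self.le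
  have hH : NN h * HH m h = 2 ^ 5 * (2 ^ h) ^ 3 * m := by
    unfold NN HH
    rw [show (4 : ℕ) = 2 ^ 2 by norm_num, ← pow_mul, ← pow_mul]
    ring
  rw [hH]
  generalize 2 ^ h = A at hA hh2
  have hA1 : 1 ≤ A := by omega
  have hm1 : 1 ≤ m := by omega
  -- the level bound
  have h1 : m ^ 4 * 3 + 1 ≤ m ^ 4 * 4 := by
    have : 1 ≤ m ^ 4 := Nat.one_le_pow _ _ hm1
    omega
  have h2 : lev (m ^ 4) (2 ^ 5 * A ^ 3 * m) ≤ 2 ^ 10 * A ^ 3 * m ^ 9 := by
    unfold lev
    have hB : 1 ≤ A ^ 3 := Nat.one_le_pow _ _ hA1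
    have hM : 1 ≤ m ^ 5 := Nat.one_le_pow _ _ hm1
    have hM4 : 1 ≤ m ^ 4 := Nat.one_le_pow _ _ hm1
    have h3 : 2 ^ 5 * A ^ 3 * m * (m ^ 4 * 3 + 1) ≤ 2 ^ 7 * (A ^ 3 * m ^ 5) := by
      calc 2 ^ 5 * A ^ 3 * m * (m ^ 4 * 3 + 1) ≤ 2 ^ 5 * A ^ 3 * m * (m ^ 4 * 4) :=
            Nat.mul_le_mul_left _ h1
        _ = 2 ^ 7 * (A ^ 3 * m ^ 5) := by ring
    have h4 : 1 ≤ A ^ 3 * m ^ 5 := Nat.mul_pos hB hM
    have h5 : 2 * (2 * (2 ^ 5 * A ^ 3 * m * (m ^ 4 * 3 + 1)) + 2) + 2 ≤ 519 * (A ^ 3 * m ^ 5) := by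
      omega
    calc m ^ 4 * (2 * (2 * (2 ^ 5 * A ^ 3 * m * (m ^ 4 * 3 + 1)) + 2) + 2) + 1
        ≤ m ^ 4 * (519 * (A ^ 3 * m ^ 5)) + 1 := by
          have := Nat.mul_le_mul_left (m ^ 4) h5
          omega
      _ = 519 * (A ^ 3 * m ^ 9) + 1 := by ring
      _ ≤ 2 ^ 10 * (A ^ 3 * m ^ 9) := by
          have : 1 ≤ A ^ 3 * m ^ 9 := Nat.mul_pos hB (Nat.one_le_pow _ _ hm1)
          omega
      _ = 2 ^ 10 * A ^ 3 * m ^ 9 := by ring
  have h6 : h * lev (m ^ 4) (2 ^ 5 * A ^ 3 * m) ≤ 2 ^ 10 * (A ^ 4 * m ^ 9) := by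
    calc h * lev (m ^ 4) (2 ^ 5 * A ^ 3 * m) ≤ A * (2 ^ 10 * A ^ 3 * m ^ 9) := Nat.mul_le_mul hh2 h2
      _ = 2 ^ 10 * (A ^ 4 * m ^ 9) := by ring
  have h7 : m ^ 4 ≤ A ^ 4 * m ^ 9 := by
    calc m ^ 4 ≤ m ^ 9 := Nat.pow_le_pow_right hm1 (by norm_num)
      _ = 1 * m ^ 9 := by ring
      _ ≤ A ^ 4 * m ^ 9 := Nat.mul_le_mul_right _ (Nat.one_le_pow _ _ hA1)
  have h8 : 1 ≤ A ^ 4 * m ^ 9 := Nat.mul_pos (Nat.one_le_pow _ _ hA1) (Nat.one_le_pow _ _ hm1)
  have h9 : 2 ^ 11 ≤ m ^ 11 := Nat.pow_le_pow_left hm 11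
  calc m ^ 4 + (1 + h * lev (m ^ 4) (2 ^ 5 * A ^ 3 * m)) ≤ 2 ^ 11 * (A ^ 4 * m ^ 9) := by omega
    _ ≤ m ^ 11 * (A ^ 4 * m ^ 9) := Nat.mul_le_mul_right _ h9
    _ = A ^ 4 * m ^ 20 := by ring
    _ ≤ A ^ 20 * m ^ 20 := Nat.mul_le_mul_right _ (Nat.pow_le_pow_right hA1 (by norm_num))
    _ = (A * m) ^ 20 := by ring

end Pool.Agent.H81.NCH.UPP

namespace Pool.Agent.H81.NCH

open Pool.Agent.H80

universe u

theorem upp_thm : UPPStmt.{u} := by
  intro K _ h m n _ hh hm hn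
  obtain ⟨l, h1, h2⟩ := UPP.der_vars (K := K) (n := n) []
  obtain ⟨l', d, h3, -, h5⟩ := UPP.der_Sp (h := h) (m := m) h2 h le_rfl
  obtain ⟨D, hD, hs⟩ := (h3.1 (h1.1 UPP.HSLP.nil)).exists_circuit h5
  refine ⟨D, hD, hs.trans ((h3.2.2.trans (Nat.add_le_add_right h1.2.2 _)).trans ?_)⟩
  have := UPP.size_bound h m hh hm
  subst hn
  simpa using this

end Pool.Agent.H81.NCH
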